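import Pool.Agent.Y472.RH.Ins
import Pool.Agent.W616.KAb

/-!
# The first homology group of the surgeries on knots is cyclic of order `|f|`
-/

set_option autoImplicit false
set_option linter.unusedSectionVars false

namespace Pool.Agent.Y472.RH

open Pool.Agent.W616

section ab

variable {m : ℕ}

/-- the sum of the exponents of the accumulated elements -/
def accSum {O : Type*} (y : Fin (m + 1) → Strand (Multiplicative ℤ) O) : ℤ :=
  ∑ p, Multiplicative.toAdd (y p).acc

theorem n_right {G O : Type*} [Group G] (i : Fin m) (y : Fin (m + 1) → Strand G O) :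
    crossing (i, false) y i.succ =
      ⟨(y i.succ).lab * (y i.castSucc).lab * (y i.succ).lab⁻¹,
        (y i.castSucc).acc * (y i.succ).lab⁻¹, (y i.castSucc).org⟩ := by
  unfold crossing
  simp only [Bool.false_eq_true, if_false, if_true]

theorem n_left {G O : Type*} [Group G] (i : Fin m) (y : Fin (m + 1) → Strand G O) :
    crossing (i, false) y i.castSucc = y i.succ := by
  have hne : i.succ ≠ i.castSucc := (Fin.castSucc_lt_succ).ne'
  unfold crossing
  simp only [Bool.false_eq_true, if_false, if_true, if_neg hne.symm]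

theorem n_other {G O : Type*} [Group G] (i : Fin m) (y : Fin (m + 1) → Strand G O)
    (p : Fin (m + 1)) (h1 : p ≠ i.castSucc) (h2 : p ≠ i.succ) : crossing (i, false) y p = y p := by
  unfold crossing
  simp only [Bool.false_eq_true, if_false, if_neg h1, if_neg h2]

theorem crossing_acc {O : Type*} (g : Fin m × Bool) (y : Fin (m + 1) → Strand (Multiplicative ℤ) O)
    (hy : ∀ p, (y p).lab = Multiplicative.ofAdd 1) :
    (∀ p, (crossing g y p).lab = Multiplicative.ofAdd 1) ∧
      accSum (crossing g y) = accSum y + if g.2 then 1 else -1 := by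
  have hne : g.1.succ ≠ g.1.castSucc := (Fin.castSucc_lt_succ).ne'
  constructor
  · intro p
    unfold crossing
    dsimp only
    split_ifs <;> simp [hy]
  · have key : ∀ p, Multiplicative.toAdd (crossing g y p).acc =
        Multiplicative.toAdd (y (Equiv.swap g.1.castSucc g.1.succ p)).acc +
          if g.2 then (if p = g.1.castSucc then (1 : ℤ) else 0)
            else (if p = g.1.succ then -1 else 0) := by
      intro p
      rcases g with ⟨i, b⟩
      have hne' : i.succ ≠ i.castSucc := hne
      by_cases h1 : p = i.castSucc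
      · subst h1
        rw [Equiv.swap_apply_left]
        cases b
        · rw [n_left]
          simp [hne'.symm]
        · rw [c_left]
          simp [hy]
      · by_cases h2 : p = i.succ
        · subst h2
          rw [Equiv.swap_apply_right]
          cases b
          · rw [n_right]
            simp [hy]
          · rw [c_right]
            simp [hne']
        · rw [Equiv.swap_apply_of_ne_of_ne h1 h2]
          cases b
          · rw [n_other i y p h1 h2]
            simp [h2]
          · rw [c_other i y p h1 h2]
            simp [h1]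
    unfold accSum
    simp only [key]
    rw [Finset.sum_add_distrib, Equiv.sum_comp (Equiv.swap g.1.castSucc g.1.succ)
      (fun p => Multiplicative.toAdd (y p).acc)]
    congr 1
    split_ifs with h <;> simp

theorem run_acc {O : Type*} (w : Braid m) (y : Fin (m + 1) → Strand (Multiplicative ℤ) O)
    (hy : ∀ p, (y p).lab = Multiplicative.ofAdd 1) :
    accSum (run w y) = accSum y + writhe w := by
  induction w generalizing y with
  | nil => simp [run_nil, writhe]
  | cons g w ih =>
    obtain ⟨h1, h2⟩ := crossing_acc g y hy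
    rw [run_cons, ih _ h1, h2]
    simp only [writhe, List.map_cons, List.sum_cons]
    ring

theorem longAux_prod {G : Type*} [CommGroup G] (w : Braid m) (x : Fin (m + 1) → G)
    (b : Fin (m + 1)) (t : ℕ) :
    longAux w x b t = ∏ s ∈ Finset.range t, accs w x ((perm w)^[s] b) := by
  induction t with
  | zero => simp [longAux_zero]
  | succ t ih => rw [longAux_succ, ih, Finset.prod_range_succ, mul_comm]

theorem longAux_writhe (w : Braid m) (b : Fin (m + 1))
    (ht : ∀ p, ∃ t : Fin (m + 1), (perm w)^[t.1] b = p) :
    longAux w (fun _ => Multiplicative.ofAdd (1 : ℤ)) b (m + 1) =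
      Multiplicative.ofAdd (writhe w) := by
  rw [longAux_prod]
  have hbij : Function.Bijective (fun t : Fin (m + 1) => (perm w)^[t.1] b) :=
    Finite.injective_iff_bijective.1 (Finite.injective_iff_surjective.2 ht)
  rw [Finset.prod_range (fun s => accs w (fun _ => Multiplicative.ofAdd (1 : ℤ)) ((perm w)^[s] b))]
  rw [hbij.prod_comp (fun p => accs w (fun _ => Multiplicative.ofAdd (1 : ℤ)) p)]
  have h := run_acc w (fresh (fun _ => Multiplicative.ofAdd (1 : ℤ))) (fun _ => rfl)
  have h0 : accSum (fresh (m := m) (fun _ => Multiplicative.ofAdd (1 : ℤ))) = 0 := by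
    simp [accSum, fresh]
  rw [h0, zero_add] at h
  apply Multiplicative.toAdd.injective
  rw [toAdd_prod, toAdd_ofAdd]
  exact h

theorem closed_const {G : Type*} [CommGroup G] (w : Braid m) (g : G) :
    Closed w (fun _ => g) := by
  intro p
  rw [labs_conj]
  rw [mul_comm _ g, mul_assoc, inv_mul_cancel, mul_one]

/-- The first homology group is cyclic of order `|f|`. -/
theorem ab_equiv (w : Braid m) (b : Fin (m + 1)) (f : ℤ)
    (ht : ∀ p, ∃ t : Fin (m + 1), (perm w)^[t.1] b = p)
    (ht' : ∀ p, ∃ t : ℕ, (perm w)^[t] p = b) :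
    Nonempty (Abelianization (pi1 w b f) ≃* Multiplicative (ZMod f.natAbs)) := by
  let A := Abelianization (pi1 w b f)
  let ψ : pi1 w b f →* A := Abelianization.of
  let x : Fin (m + 1) → A := fun p => ψ (PresentedGroup.of p)
  obtain ⟨hc, hrel⟩ := (homEquiv w b f ψ).2
  change Closed w x at hc
  change x b ^ (f - writhe w) * longAux w x b (m + 1) = 1 at hrel
  have hx : x = fun _ => x b := by
    funext p
    obtain ⟨t, h⟩ := ht' p
    rw [← closed_comm w x hc t p, h]
  let g := x b
  let φ : Multiplicative ℤ →* A := zpowersHom A g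
  have hφ : ∀ z, φ z = g ^ (Multiplicative.toAdd z) := fun z => by simp [φ]
  have h2 : longAux w x b (m + 1) =
      φ (longAux w (fun _ => Multiplicative.ofAdd (1 : ℤ)) b (m + 1)) := by
    rw [← longAux_map φ w (fun _ => Multiplicative.ofAdd (1 : ℤ)) b]
    conv_lhs => rw [hx]
    congr 1
  rw [h2, hφ, longAux_writhe w b ht, toAdd_ofAdd] at hrel
  change g ^ (f - writhe w) * g ^ (writhe w) = 1 at hrel
  rw [← zpow_add, sub_add_cancel] at hrel
  have htop : ∀ a : A, a ∈ Subgroup.zpowers g := by
    intro a
    obtain ⟨y, rfl⟩ := QuotientGroup.mk_surjective a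
    have hy : y ∈ Subgroup.comap ψ (Subgroup.zpowers g) := by
      have : (⊤ : Subgroup (pi1 w b f)) ≤ Subgroup.comap ψ (Subgroup.zpowers g) := by
        rw [← PresentedGroup.closure_range_of, Subgroup.closure_le]
        rintro _ ⟨p, rfl⟩
        change x p ∈ Subgroup.zpowers g
        rw [hx]
        exact Subgroup.mem_zpowers g
      exact this (Subgroup.mem_top y)
    exact hy
  -- the homomorphism to the cyclic group
  let n := f.natAbs
  let C := Multiplicative (ZMod n)
  let red : Multiplicative ℤ →* C := AddMonoidHom.toMultiplicative (Int.castAddHom (ZMod n))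
  have hred1 : red (Multiplicative.ofAdd 1) = Multiplicative.ofAdd (1 : ZMod n) := by
    change Multiplicative.ofAdd (((1 : ℤ) : ZMod n)) = Multiplicative.ofAdd (1 : ZMod n)
    rw [Int.cast_one]
  have hlong : longAux w (fun _ => Multiplicative.ofAdd (1 : ZMod n)) b (m + 1) =
      red (Multiplicative.ofAdd (writhe w)) := by
    rw [← longAux_writhe w b ht, ← longAux_map red w (fun _ => Multiplicative.ofAdd (1 : ℤ)) b]
    rw [hred1]
  have hrelC : (Multiplicative.ofAdd (1 : ZMod n)) ^ (f - writhe w) *
      longAux w (fun _ => Multiplicative.ofAdd (1 : ZMod n)) b (m + 1) = 1 := by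
    rw [hlong, ← hred1, ← map_zpow, ← map_mul, ← ofAdd_zsmul, ← ofAdd_add]
    have e : (f - writhe w) • (1 : ℤ) + writhe w = f := by simp
    rw [e]
    change Multiplicative.ofAdd ((f : ℤ) : ZMod n) = 1
    rw [ofAdd_eq_one, ZMod.intCast_zmod_eq_zero_iff_dvd]
    exact Int.natAbs_dvd.2 dvd_rfl
  let χ : pi1 w b f →* C := (homEquiv w b f).symm
    ⟨fun _ => Multiplicative.ofAdd (1 : ZMod n), closed_const w _, hrelC⟩
  have hχ : ∀ p, χ (PresentedGroup.of p) = Multiplicative.ofAdd (1 : ZMod n) := by
    intro p
    have h := (homEquiv w b f).apply_symm_apply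
      ⟨fun _ => Multiplicative.ofAdd (1 : ZMod n), closed_const w _, hrelC⟩
    exact congrFun (congrArg Subtype.val h) p
  let χ' : A →* C := Abelianization.lift χ
  have hχ' : χ' g = Multiplicative.ofAdd (1 : ZMod n) := by
    change χ' (Abelianization.of (PresentedGroup.of b)) = _
    rw [Abelianization.lift_apply_of]
    exact hχ b
  -- it is an isomorphism
  refine ⟨MulEquiv.ofBijective χ' ⟨?_, ?_⟩⟩
  · rw [injective_iff_map_eq_one]
    intro a ha
    obtain ⟨k, rfl⟩ := htop a
    change χ' (g ^ k) = 1 at ha
    change g ^ k = 1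
    rw [map_zpow, hχ', ← ofAdd_zsmul, ofAdd_eq_one, zsmul_one,
      ZMod.intCast_zmod_eq_zero_iff_dvd] at ha
    have hd : f ∣ k := Int.natAbs_dvd.1 ha
    obtain ⟨l, rfl⟩ := hd
    rw [zpow_mul, hrel, one_zpow]
  · intro c
    obtain ⟨k, hk⟩ := ZMod.intCast_surjective (Multiplicative.toAdd c)
    refine ⟨g ^ k, ?_⟩
    rw [map_zpow, hχ', ← ofAdd_zsmul, zsmul_one, hk]
    rfl

end ab

end Pool.Agent.Y472.RH
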