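import Pool.Agent.Y472.RH.Cnt
import Pool.Agent.Y472.RH.Ab

/-!
# Infinitely many pairs, and connected sums
-/

set_option autoImplicit false
set_option linter.unusedSectionVars false

namespace Pool.Agent.Y472.RH

open Pool.Agent.W616

theorem perm_false (w₁ w₂ : Braid 2) (h₁ : Ins wordK w₁) (h₂ : Ins wordK w₂) :
    perm (sumWord w₁ w₂ false) = perm sumKK := (h₁.sum h₂).perm_eq

theorem perm_true (w₁ w₂ : Braid 2) (h₁ : Ins wordK w₁) (h₂ : Ins wordK w₂) :
    perm (sumWord w₁ w₂ true) = perm sumKrK := (h₁.sum h₂.reverse).perm_eq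

theorem trans_all (w₁ w₂ : Braid 2) (h₁ : Ins wordK w₁) (h₂ : Ins wordK w₂) (c : Bool) :
    ∀ b p : Fin 5, ∃ t : Fin 5, (perm (sumWord w₁ w₂ c))^[t.1] p = b := by
  cases c
  · rw [perm_false w₁ w₂ h₁ h₂]; exact trans_KK
  · rw [perm_true w₁ w₂ h₁ h₂]; exact trans_KrK

theorem isKnot_all (w₁ w₂ : Braid 2) (h₁ : Ins wordK w₁) (h₂ : Ins wordK w₂) (c : Bool) :
    IsKnot (sumWord w₁ w₂ c) := fun p => ⟨_, (trans_all w₁ w₂ h₁ h₂ c p 0).choose_spec⟩

theorem ab_all (w₁ w₂ : Braid 2) (h₁ : Ins wordK w₁) (h₂ : Ins wordK w₂) (c : Bool) (f : ℤ) :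
    Nonempty (Abelianization (pi1 (sumWord w₁ w₂ c) 2 f) ≃* Multiplicative (ZMod f.natAbs)) :=
  ab_equiv _ 2 f (fun p => trans_all w₁ w₂ h₁ h₂ c p 2)
    (fun p => ⟨_, (trans_all w₁ w₂ h₁ h₂ c 2 p).choose_spec⟩)

theorem knotInv_all (Δ : CartanDatum) (lam : Fin Δ.n → ℕ) (w₁ w₂ : Braid 2) (f : ℤ) :
    knotInv Δ lam (sumWord w₁ w₂ true) f = knotInv Δ lam (sumWord w₁ w₂ false) f :=
  knotInv_mutation Δ lam w₁ w₂ f

theorem tauG_all (Δ : CartanDatum) (r : ℕ) (w₁ w₂ : Braid 2) (f : ℤ) (c c' : Bool) :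
    tauG Δ r (sumWord w₁ w₂ c) f = tauG Δ r (sumWord w₁ w₂ c') f := by
  have h : tauG Δ r (sumWord w₁ w₂ true) f = tauG Δ r (sumWord w₁ w₂ false) f :=
    surgerySum_mutation Δ _ r w₁ w₂ f
  cases c <;> cases c' <;> first | rfl | exact h | exact h.symm

theorem tauPG_all (Δ : CartanDatum) (r : ℕ) (w₁ w₂ : Braid 2) (f : ℤ) (c c' : Bool) :
    tauPG Δ r (sumWord w₁ w₂ c) f = tauPG Δ r (sumWord w₁ w₂ c') f := by
  have h : tauPG Δ r (sumWord w₁ w₂ true) f = tauPG Δ r (sumWord w₁ w₂ false) f :=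
    surgerySum_mutation Δ _ r w₁ w₂ f
  cases c <;> cases c' <;> first | rfl | exact h | exact h.symm

theorem card_coprod {ι : Type} [Fintype ι] (G : ι → Type) [∀ i, Group (G i)] :
    Nat.card (Monoid.CoprodI G →* H) = ∏ i, Nat.card (G i →* H) := by
  rw [← Nat.card_congr (Monoid.CoprodI.lift (M := G) (N := H)), Nat.card_pi]

theorem pow_ne {A B n t t' : ℕ} (hA : 0 < A) (hB : 0 < B) (hne : A ≠ B) (htt : t < t')
    (ht' : t' ≤ n) : A ^ (n - t) * B ^ t ≠ A ^ (n - t') * B ^ t' := by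
  intro h
  obtain ⟨d, rfl⟩ := Nat.exists_eq_add_of_lt htt
  have e1 : n - t = (n - (t + d + 1)) + (d + 1) := by omega
  have e2 : t + d + 1 = t + (d + 1) := by omega
  rw [e1, pow_add, e2, pow_add B t (d + 1)] at h
  have h2 : (A ^ (n - (t + (d + 1))) * B ^ t) * A ^ (d + 1) =
      (A ^ (n - (t + (d + 1))) * B ^ t) * B ^ (d + 1) := by
    have e3 : (A ^ (n - (t + (d + 1))) * B ^ t) * A ^ (d + 1) =
      A ^ (n - (t + (d + 1))) * A ^ (d + 1) * B ^ t := by ring
    rw [e3, h]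
    ring
  have h3 : A ^ (d + 1) = B ^ (d + 1) :=
    Nat.eq_of_mul_eq_mul_left (Nat.mul_pos (pow_pos hA _) (pow_pos hB _)) h2
  exact hne (Nat.pow_left_injective (Nat.succ_ne_zero d) h3)

/-- The fundamental groups of the connected sums. -/
theorem coprod_not_iso (w₁ w₂ : Braid 2) (h₁ : Ins wordK w₁) (h₂ : Ins wordK w₂) (f : ℤ)
    (hf : 3 ∣ f) {n : ℕ} (c c' : Fin n → Bool)
    (hc : (Finset.univ.filter fun i => c i = true).card ≠
      (Finset.univ.filter fun i => c' i = true).card) :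
    IsEmpty (Monoid.CoprodI (fun i => pi1 (sumWord w₁ w₂ (c i)) 2 f) ≃*
      Monoid.CoprodI (fun i => pi1 (sumWord w₁ w₂ (c' i)) 2 f)) := by
  constructor
  intro e
  have h : Nat.card (Monoid.CoprodI (fun i => pi1 (sumWord w₁ w₂ (c i)) 2 f) →* H) =
      Nat.card (Monoid.CoprodI (fun i => pi1 (sumWord w₁ w₂ (c' i)) 2 f) →* H) :=
    Nat.card_congr e.monoidHomCongrLeftEquiv
  have key : ∀ c : Fin n → Bool,
      Nat.card (Monoid.CoprodI (fun i => pi1 (sumWord w₁ w₂ (c i)) 2 f) →* H) =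
      Nat.card (pi1 (sumWord w₁ w₂ false) 2 f →* H) ^
        (n - (Finset.univ.filter fun i => c i = true).card) *
      Nat.card (pi1 (sumWord w₁ w₂ true) 2 f →* H) ^
        (Finset.univ.filter fun i => c i = true).card := by
    intro c
    rw [card_coprod]
    have e1 : ∀ i, Nat.card (pi1 (sumWord w₁ w₂ (c i)) 2 f →* H) =
        if c i = true then Nat.card (pi1 (sumWord w₁ w₂ true) 2 f →* H)
          else Nat.card (pi1 (sumWord w₁ w₂ false) 2 f →* H) := by
      intro i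
      cases c i <;> simp
    rw [Finset.prod_congr rfl fun i _ => e1 i, Finset.prod_ite, Finset.prod_const,
      Finset.prod_const, mul_comm]
    congr 2
    have h2 := Finset.card_filter_add_card_filter_not
      (s := (Finset.univ : Finset (Fin n))) (fun i => c i = true)
    rw [Finset.card_univ, Fintype.card_fin] at h2
    omega
  rw [key c, key c'] at h
  have hA := card_hom_pos w₁ w₂ h₁ h₂ f hf false
  have hB := card_hom_pos w₁ w₂ h₁ h₂ f hf true
  have hne := card_hom_ne w₁ w₂ h₁ h₂ f hf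
  have hle : ∀ c : Fin n → Bool, (Finset.univ.filter fun i => c i = true).card ≤ n := by
    intro c
    have := Finset.card_filter_le (Finset.univ : Finset (Fin n)) (fun i => c i = true)
    simpa using this
  rcases lt_or_gt_of_ne hc with h3 | h3
  · exact pow_ne hA hB hne h3 (hle c') h
  · exact pow_ne hA hB hne h3 (hle c) h.symm

end Pool.Agent.Y472.RH
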