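import Pool.Agent.Y472.RH.Ins
import Pool.Agent.W616.HTotal

/-!
# The numbers of homomorphisms to the group of order 168, for all framings
-/

set_option autoImplicit false
set_option linter.unusedSectionVars false

namespace Pool.Agent.Y472.RH

open Pool.Agent.W616
open QModule (l3 r3 l3_inj r3_inj)

/-- the code of a power -/
def hpw (a : ℕ) : ℕ → ℕ
  | 0 => 0
  | n + 1 => force (hpw a n) fun r => hm r a

theorem hpw_eq (a : H) (n : ℕ) : hpw a.code n = (a ^ n).code := by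
  induction n with
  | zero => simp [hpw, code_one]
  | succ n ih => rw [hpw, force_eq, ih, pow_succ, code_mul]

theorem hpw42 : ∀ a < 168, hpw a 42 = 0 := by decide +kernel

theorem pow42 (a : H) : a ^ 42 = 1 := by
  rw [← code_eq_zero, ← hpw_eq]
  exact hpw42 a.code a.lt

theorem zpow_eq (a : H) (f : ℤ) : a ^ f = 1 ↔ hpw a.code (f % 42).toNat = 0 := by
  have h1 : f = (f % 42).toNat + 42 * (f / 42) := by
    have h2 : 0 ≤ f % 42 := Int.emod_nonneg _ (by norm_num)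
    rw [Int.toNat_of_nonneg h2]
    omega
  have h3 : a ^ f = a ^ (f % 42).toNat := by
    conv_lhs => rw [h1]
    rw [zpow_add, zpow_mul, zpow_natCast]
    have : a ^ (42 : ℤ) = 1 := by exact_mod_cast pow42 a
    rw [this, one_zpow, mul_one]
  rw [h3, hpw_eq, code_eq_zero]

/-- the number of homomorphisms -/
def cnt (v1 v2 : List ℕ) (f : ℕ) : ℕ := sumTo 168 fun a =>
  if hpw a f = 0 then v1.getD (cls a) 0 * v2.getD (cls a) 0 else 0

theorem cnt_ne : ∀ r < 14, cnt vK vK (3 * r) ≠ cnt vK vR (3 * r) := by decide +kernel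

theorem cnt_pos : ∀ r < 14, 1 < cnt vK vK (3 * r) ∧ 1 < cnt vK vR (3 * r) := by decide +kernel

theorem pow_rel (a l1 l2 : H) (f : ℤ) (h1 : l1 * (a * a) = 1) (h2 : l2 * (a * a) = 1) :
    a ^ (f - -4) * (l1 * l2) = a ^ f := by
  have e1 : l1 = (a * a)⁻¹ := eq_inv_of_mul_eq_one_left h1
  have e2 : l2 = (a * a)⁻¹ := eq_inv_of_mul_eq_one_left h2
  rw [e1, e2]
  group

theorem rel_iff' (w : Braid 2) (hg : Good w) (f : ℤ) (x : Fin 5 → H) (a : H) (ha : x 2 = a)
    (hc1 : Closed wordK (fun q => x (l3 q))) (hc2 : Closed w (fun q => x (r3 q))) :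
    x 2 ^ (f - writhe (left3 wordK ++ right3 w)) *
      longAux (left3 wordK ++ right3 w) x 2 (4 + 1) = a ^ f := by
  have e1 : (fun q => x (l3 q)) 2 = a := ha
  have e2 : (fun q => x (r3 q)) 0 = a := ha
  have h1 := hg.h1 _ a hc1 e1
  have h2 := hg.h2 _ a hc2 e2
  have h3 : longAux (left3 wordK ++ right3 w) x 2 (4 + 1) =
    longAux wordK (fun q => x (l3 q)) 2 3 * longAux w (fun q => x (r3 q)) 0 3 := hg.hlong x hc1
  rw [h3, hg.hw, ha]
  exact pow_rel a _ _ f h1 h2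

/-- the solutions for the surgery on the sum -/
abbrev SolSum' (w : Braid 2) (f : ℤ) : Type := {x : Fin 5 → H // Closed (left3 wordK ++ right3 w) x ∧
  x 2 ^ (f - writhe (left3 wordK ++ right3 w)) *
    longAux (left3 wordK ++ right3 w) x 2 (4 + 1) = 1}

/-- the solutions for the surgery on the sum, from those for the summands -/
def sumEquiv' (w : Braid 2) (hg : Good w) (f : ℤ) :
    SolSum' w f ≃ Σ a : {a : H // a ^ f = 1}, Sol wordK 2 a.1 × Sol w 0 a.1 where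
  toFun x :=
    ⟨⟨x.1 2, (rel_iff' w hg f x.1 (x.1 2) rfl ((closed_sum wordK w x.1).1 x.2.1).1
        ((closed_sum wordK w x.1).1 x.2.1).2).symm.trans x.2.2⟩,
      ⟨fun q => x.1 (l3 q), ((closed_sum wordK w x.1).1 x.2.1).1, rfl⟩,
      ⟨fun q => x.1 (r3 q), ((closed_sum wordK w x.1).1 x.2.1).2, rfl⟩⟩
  invFun s :=
    have hl := glue_l s.1.1 s.2.1.1 s.2.2.1 s.2.1.2.2
    have hr := glue_r s.1.1 s.2.1.1 s.2.2.1 s.2.2.2.2
    have hc1 : Closed wordK (fun q => glue s.1.1 s.2.1.1 s.2.2.1 (l3 q)) := by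
      rw [hl]; exact s.2.1.2.1
    have hc2 : Closed w (fun q => glue s.1.1 s.2.1.1 s.2.2.1 (r3 q)) := by
      rw [hr]; exact s.2.2.2.1
    ⟨glue s.1.1 s.2.1.1 s.2.2.1, (closed_sum wordK w _).2 ⟨hc1, hc2⟩,
      (rel_iff' w hg f _ s.1.1 rfl hc1 hc2).trans s.1.2⟩
  left_inv x := by
    apply Subtype.ext
    funext p
    fin_cases p <;> rfl
  right_inv s := by
    have el : (fun q => glue s.1.1 s.2.1.1 s.2.2.1 (l3 q)) = s.2.1.1 := glue_l _ _ _ s.2.1.2.2
    have er : (fun q => glue s.1.1 s.2.1.1 s.2.2.1 (r3 q)) = s.2.2.1 := glue_r _ _ _ s.2.2.2.2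
    exact Sigma.ext rfl (heq_of_eq (Prod.ext (Subtype.ext el) (Subtype.ext er)))

theorem card_sum' (w : Braid 2) (hg : Good w) (f : ℤ)
    (v1 v2 : List ℕ) (c1 : ∀ a : H, Nat.card (Sol wordK 2 a) = v1.getD (cls a.code) 0)
    (c2 : ∀ a : H, Nat.card (Sol w 0 a) = v2.getD (cls a.code) 0) :
    Nat.card (pi1 (left3 wordK ++ right3 w) 2 f →* H) = cnt v1 v2 (f % 42).toNat := by
  classical
  rw [Nat.card_congr (homEquiv (left3 wordK ++ right3 w) 2 f),
    Nat.card_congr (sumEquiv' w hg f), Nat.card_sigma]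
  simp only [Nat.card_prod, c1, c2]
  rw [cnt, sum_H]
  simp only [← zpow_eq]
  rw [← Finset.sum_filter]
  exact (Finset.sum_subtype _ (fun x => by simp)
    (fun a : H => v1.getD (cls a.code) 0 * v2.getD (cls a.code) 0)).symm

theorem card_KK' (f : ℤ) : Nat.card (pi1 (left3 wordK ++ right3 wordK) 2 f →* H) =
    cnt vK vK (f % 42).toNat :=
  card_sum' wordK good_K f vK vK (fun a => (spec0 a).2) (fun a => (spec1 a).2)

theorem card_KrK' (f : ℤ) : Nat.card (pi1 (left3 wordK ++ right3 wordK.reverse) 2 f →* H) =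
    cnt vK vR (f % 42).toNat :=
  card_sum' wordK.reverse good_R f vK vR (fun a => (spec0 a).2) (fun a => (spec2 a).2)

/-- the word for `K₁ # K₂` (`c = false`) and for `K₁ # rK₂` (`c = true`) -/
def sumWord (w₁ w₂ : Braid 2) (c : Bool) : Braid 4 :=
  left3 w₁ ++ right3 (if c then w₂.reverse else w₂)

theorem card_hom (w₁ w₂ : Braid 2) (h₁ : Ins wordK w₁) (h₂ : Ins wordK w₂) (c : Bool) (f : ℤ) :
    Nat.card (pi1 (sumWord w₁ w₂ c) 2 f →* H) =
      cnt vK (if c then vR else vK) (f % 42).toNat := by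
  cases c
  · have := Ins.card_hom (G := H) pow42 (h₁.sum h₂) 2 f
    rw [card_KK'] at this
    exact this
  · have := Ins.card_hom (G := H) pow42 (h₁.sum h₂.reverse) 2 f
    rw [card_KrK'] at this
    exact this

theorem f_mod (f : ℤ) (h : 3 ∣ f) : ∃ r < 14, (f % 42).toNat = 3 * r := by
  obtain ⟨k, rfl⟩ := h
  exact ⟨(k % 14).toNat, by omega, by omega⟩

theorem card_hom_ne (w₁ w₂ : Braid 2) (h₁ : Ins wordK w₁) (h₂ : Ins wordK w₂) (f : ℤ)
    (hf : 3 ∣ f) : Nat.card (pi1 (sumWord w₁ w₂ false) 2 f →* H) ≠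
      Nat.card (pi1 (sumWord w₁ w₂ true) 2 f →* H) := by
  obtain ⟨r, hr, e⟩ := f_mod f hf
  rw [card_hom w₁ w₂ h₁ h₂, card_hom w₁ w₂ h₁ h₂, e]
  exact cnt_ne r hr

theorem card_hom_pos (w₁ w₂ : Braid 2) (h₁ : Ins wordK w₁) (h₂ : Ins wordK w₂) (f : ℤ)
    (hf : 3 ∣ f) (c : Bool) : 0 < Nat.card (pi1 (sumWord w₁ w₂ c) 2 f →* H) := by
  obtain ⟨r, hr, e⟩ := f_mod f hf
  rw [card_hom w₁ w₂ h₁ h₂, e]
  cases c
  · exact lt_trans one_pos (cnt_pos r hr).1
  · exact lt_trans one_pos (cnt_pos r hr).2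

/-- The two fundamental groups are not isomorphic. -/
theorem pi1_not_iso (w₁ w₂ : Braid 2) (h₁ : Ins wordK w₁) (h₂ : Ins wordK w₂) (f : ℤ)
    (hf : 3 ∣ f) : IsEmpty (pi1 (sumWord w₁ w₂ false) 2 f ≃* pi1 (sumWord w₁ w₂ true) 2 f) := by
  constructor
  intro e
  exact card_hom_ne w₁ w₂ h₁ h₂ f hf (Nat.card_congr e.monoidHomCongrLeftEquiv)

end Pool.Agent.Y472.RH
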