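import Pool.Agent.W616.KGroup

/-!
# Braid words with 84-fold powers of generators inserted, in groups of exponent 42
-/

set_option autoImplicit false
set_option linter.unusedSectionVars false

namespace Pool.Agent.Y472.RH

open Pool.Agent.W616

/-- `Ins w₀ w`: the braid word `w` is obtained from `w₀` by inserting, any number of times and at any
places, the 84-th power of a generator `σ_i` or of its inverse. -/
inductive Ins {m : ℕ} (w₀ : Braid m) : Braid m → Prop
  | refl : Ins w₀ w₀
  | insert (u v : Braid m) (g : Fin m × Bool) (h : Ins w₀ (u ++ v)) :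
      Ins w₀ (u ++ List.replicate 84 g ++ v)

section ins

variable {m n : ℕ}

theorem Ins.reverse {w₀ w : Braid m} (h : Ins w₀ w) : Ins w₀.reverse w.reverse := by
  induction h with
  | refl => exact Ins.refl
  | insert u v g _ ih =>
    rw [List.reverse_append] at ih
    have := Ins.insert v.reverse u.reverse g ih
    rw [List.reverse_append, List.reverse_append, List.reverse_replicate]
    rw [List.append_assoc] at this
    exact this

theorem Ins.map {w₀ w : Braid m} (e : Fin m → Fin n) (h : Ins w₀ w) :
    Ins (w₀.map fun g => (e g.1, g.2)) (w.map fun g => (e g.1, g.2)) := by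
  induction h with
  | refl => exact Ins.refl
  | insert u v g _ ih =>
    rw [List.map_append] at ih
    have := Ins.insert _ _ (e g.1, g.2) ih
    rw [List.map_append, List.map_append, List.map_replicate]
    exact this

theorem Ins.trans {w₀ w₁ w₂ : Braid m} (h : Ins w₀ w₁) (h' : Ins w₁ w₂) : Ins w₀ w₂ := by
  induction h' with
  | refl => exact h
  | insert u v g _ ih => exact Ins.insert u v g ih

theorem Ins.append_right {w₀ w : Braid m} (h : Ins w₀ w) (z : Braid m) :
    Ins (w₀ ++ z) (w ++ z) := by
  induction h with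
  | refl => exact Ins.refl
  | insert u v g _ ih =>
    rw [List.append_assoc] at ih
    have := Ins.insert u (v ++ z) g ih
    rw [List.append_assoc, List.append_assoc]
    rw [List.append_assoc] at this
    exact this

theorem Ins.append_left {w₀ w : Braid m} (h : Ins w₀ w) (z : Braid m) :
    Ins (z ++ w₀) (z ++ w) := by
  induction h with
  | refl => exact Ins.refl
  | insert u v g _ ih =>
    rw [← List.append_assoc] at ih
    have := Ins.insert (z ++ u) v g ih
    rw [← List.append_assoc, ← List.append_assoc]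
    exact this

theorem Ins.append {w₀ w z₀ z : Braid m} (h : Ins w₀ w) (h' : Ins z₀ z) : Ins (w₀ ++ z₀) (w ++ z) :=
  (h.append_right z₀).trans (h'.append_left w)

/-- the words for the sums -/
theorem Ins.sum {w₀ w z₀ z : Braid 2} (h : Ins w₀ w) (h' : Ins z₀ z) :
    Ins (left3 w₀ ++ right3 z₀) (left3 w ++ right3 z) :=
  (h.map _).append (h'.map _)

theorem Ins.writhe {w₀ w : Braid m} (h : Ins w₀ w) : ∃ k : ℤ, writhe w = writhe w₀ + 84 * k := by
  induction h with
  | refl => exact ⟨0, by ring⟩
  | insert u v g _ ih =>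
    obtain ⟨k, hk⟩ := ih
    have h1 : ∀ a b : Braid m, Pool.Agent.W616.writhe (a ++ b) =
        Pool.Agent.W616.writhe a + Pool.Agent.W616.writhe b := fun a b => by
      simp [Pool.Agent.W616.writhe]
    rw [h1] at hk
    rw [h1, h1]
    have h2 : Pool.Agent.W616.writhe (List.replicate 84 g) = 84 * (if g.2 then (1 : ℤ) else -1) := by
      simp only [Pool.Agent.W616.writhe, List.map_replicate, List.sum_replicate]
      norm_num
    rw [h2]
    refine ⟨k + (if g.2 then (1 : ℤ) else -1), ?_⟩
    linarith

end ins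

section run

variable {G O : Type*} [Group G] {m : ℕ}

theorem run_replicate_succ (g : Fin m × Bool) (k : ℕ) (x : Fin (m + 1) → Strand G O) :
    run (List.replicate (k + 1) g) x = crossing g (run (List.replicate k g) x) := by
  rw [List.replicate_succ', run_append]
  rfl

theorem grp1 (g a : G) (k : ℕ) :
    (g⁻¹ ^ k * a * g ^ k)⁻¹ * (g⁻¹ ^ k * (g * a⁻¹) * g ^ k) * (g⁻¹ ^ k * a * g ^ k) =
      g⁻¹ ^ (k + 1) * (g * a⁻¹) * g ^ (k + 1) := by
  group

theorem grp2 (g a : G) (k : ℕ) :
    (g⁻¹ ^ (k + 1) * (g * a⁻¹) * g ^ (k + 1))⁻¹ * (g⁻¹ ^ k * a * g ^ k) *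
      (g⁻¹ ^ (k + 1) * (g * a⁻¹) * g ^ (k + 1)) = g⁻¹ ^ (k + 1) * a * g ^ (k + 1) := by
  group

theorem grp3 (g a c : G) (k : ℕ) :
    c * a⁻¹ ^ k * g ^ k * (g⁻¹ ^ (k + 1) * (g * a⁻¹) * g ^ (k + 1)) =
      c * a⁻¹ ^ (k + 1) * g ^ (k + 1) := by
  group

theorem grp4 (g b c : G) (k : ℕ) :
    c * b⁻¹ ^ k * g ^ k * (g⁻¹ ^ k * (b⁻¹ * g) * g ^ k) = c * b⁻¹ ^ (k + 1) * g ^ (k + 1) := by
  group

theorem c_left (i : Fin m) (y : Fin (m + 1) → Strand G O) :
    crossing (i, true) y i.castSucc =
      ⟨(y i.castSucc).lab⁻¹ * (y i.succ).lab * (y i.castSucc).lab,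
        (y i.succ).acc * (y i.castSucc).lab, (y i.succ).org⟩ := by
  unfold crossing
  simp only [if_true]

theorem c_right (i : Fin m) (y : Fin (m + 1) → Strand G O) :
    crossing (i, true) y i.succ = y i.castSucc := by
  have hne : i.succ ≠ i.castSucc := (Fin.castSucc_lt_succ).ne'
  unfold crossing
  simp only [if_true, if_neg hne]

theorem c_other (i : Fin m) (y : Fin (m + 1) → Strand G O) (p : Fin (m + 1))
    (h1 : p ≠ i.castSucc) (h2 : p ≠ i.succ) : crossing (i, true) y p = y p := by
  unfold crossing
  simp only [if_true, if_neg h1, if_neg h2]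

/-- the effect of `2 k` positive crossings -/
theorem run_pos (i : Fin m) (k : ℕ) (x : Fin (m + 1) → Strand G O) :
    (run (List.replicate (2 * k) (i, true)) x i.castSucc =
        ⟨((x i.succ).lab * (x i.castSucc).lab)⁻¹ ^ k * (x i.castSucc).lab *
            ((x i.succ).lab * (x i.castSucc).lab) ^ k,
          (x i.castSucc).acc * (x i.castSucc).lab⁻¹ ^ k *
            ((x i.succ).lab * (x i.castSucc).lab) ^ k, (x i.castSucc).org⟩) ∧
    (run (List.replicate (2 * k) (i, true)) x i.succ =
        ⟨((x i.succ).lab * (x i.castSucc).lab)⁻¹ ^ k * (x i.succ).lab *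
            ((x i.succ).lab * (x i.castSucc).lab) ^ k,
          (x i.succ).acc * (x i.succ).lab⁻¹ ^ k *
            ((x i.succ).lab * (x i.castSucc).lab) ^ k, (x i.succ).org⟩) ∧
    ∀ p, p ≠ i.castSucc → p ≠ i.succ → run (List.replicate (2 * k) (i, true)) x p = x p := by
  induction k with
  | zero =>
    simp [run_nil]
  | succ k ih =>
    have e : 2 * (k + 1) = 2 * k + 1 + 1 := by ring
    rw [e, run_replicate_succ, run_replicate_succ]
    obtain ⟨ha, hb, hc⟩ := ih
    generalize run (List.replicate (2 * k) (i, true)) x = y at ha hb hc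
    have hb' : (x i.succ).lab = ((x i.succ).lab * (x i.castSucc).lab) * (x i.castSucc).lab⁻¹ := by
      group
    have ha' : (x i.castSucc).lab = (x i.succ).lab⁻¹ * ((x i.succ).lab * (x i.castSucc).lab) := by
      group
    have hA : (y i.castSucc).lab⁻¹ * (y i.succ).lab * (y i.castSucc).lab =
        ((x i.succ).lab * (x i.castSucc).lab)⁻¹ ^ (k + 1) *
          (((x i.succ).lab * (x i.castSucc).lab) * (x i.castSucc).lab⁻¹) *
            ((x i.succ).lab * (x i.castSucc).lab) ^ (k + 1) := by
      rw [ha, hb]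
      have := grp1 ((x i.succ).lab * (x i.castSucc).lab) (x i.castSucc).lab k
      rw [← hb'] at this ⊢
      exact this
    have hA2 : (y i.succ).acc * (y i.castSucc).lab = (x i.succ).acc * (x i.succ).lab⁻¹ ^ (k + 1) *
            ((x i.succ).lab * (x i.castSucc).lab) ^ (k + 1) := by
      rw [ha, hb]
      have := grp4 ((x i.succ).lab * (x i.castSucc).lab) (x i.succ).lab (x i.succ).acc k
      rw [← ha'] at this
      exact this
    refine ⟨?_, ?_, ?_⟩
    · rw [c_left, c_right, c_left]
      simp only [Strand.mk.injEq]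
      refine ⟨?_, ?_, ?_⟩
      · rw [hA, ha]
        exact grp2 _ _ _
      · rw [hA, ha]
        exact grp3 _ _ _ _
      · rw [ha]
    · rw [c_right, c_left]
      simp only [Strand.mk.injEq]
      refine ⟨?_, hA2, ?_⟩
      · rw [hA, ← hb']
      · rw [hb]
    · intro p h1 h2
      rw [c_other i _ p h1 h2, c_other i _ p h1 h2, hc p h1 h2]

/-- the inverse of a positive crossing -/
theorem crossing_cancel (i : Fin m) (x : Fin (m + 1) → Strand G O) :
    crossing (i, false) (crossing (i, true) x) = x := by
  have hne : i.succ ≠ i.castSucc := (Fin.castSucc_lt_succ).ne'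
  have hl : ∀ y : Fin (m + 1) → Strand G O, crossing (i, false) y i.succ =
      ⟨(y i.succ).lab * (y i.castSucc).lab * (y i.succ).lab⁻¹,
        (y i.castSucc).acc * (y i.succ).lab⁻¹, (y i.castSucc).org⟩ := by
    intro y
    unfold crossing
    simp only [Bool.false_eq_true, if_false, if_true]
  have hr : ∀ y : Fin (m + 1) → Strand G O, crossing (i, false) y i.castSucc = y i.succ := by
    intro y
    unfold crossing
    simp only [Bool.false_eq_true, if_false, if_true, if_neg hne.symm]
  have ho : ∀ (y : Fin (m + 1) → Strand G O) (p : Fin (m + 1)), p ≠ i.castSucc → p ≠ i.succ →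
      crossing (i, false) y p = y p := by
    intro y p h1 h2
    unfold crossing
    simp only [Bool.false_eq_true, if_false, if_neg h1, if_neg h2]
  funext p
  by_cases h1 : p = i.castSucc
  · subst h1
    rw [hr, c_right]
  · by_cases h2 : p = i.succ
    · subst h2
      rw [hl, c_right, c_left]
      have e1 : (x i.castSucc).lab * ((x i.castSucc).lab⁻¹ * (x i.succ).lab * (x i.castSucc).lab) *
          (x i.castSucc).lab⁻¹ = (x i.succ).lab := by group
      have e2 : (x i.succ).acc * (x i.castSucc).lab * (x i.castSucc).lab⁻¹ = (x i.succ).acc := by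
        group
      simp only [e1, e2]
    · rw [ho _ p h1 h2, c_other i _ p h1 h2]

theorem run_cancel (i : Fin m) (k : ℕ) (x : Fin (m + 1) → Strand G O) :
    run (List.replicate k (i, false)) (run (List.replicate k (i, true)) x) = x := by
  induction k generalizing x with
  | zero => rfl
  | succ k ih =>
    rw [run_replicate_succ (i, true) k x, List.replicate_succ, run_cons, crossing_cancel, ih]

theorem run_84 (h42 : ∀ a : G, a ^ 42 = 1) (g : Fin m × Bool) (x : Fin (m + 1) → Strand G O) :
    run (List.replicate 84 g) x = x := by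
  have hpos : ∀ i : Fin m, run (List.replicate 84 (i, true)) x = x := by
    intro i
    have e : 84 = 2 * 42 := by norm_num
    obtain ⟨ha, hb, hc⟩ := run_pos i 42 x
    rw [← e] at ha hb hc
    simp only [h42, one_mul, mul_one] at ha hb
    funext p
    by_cases h1 : p = i.castSucc
    · rw [h1, ha]
    · by_cases h2 : p = i.succ
      · rw [h2, hb]
      · exact hc p h1 h2
  rcases g with ⟨i, b⟩
  cases b
  · have h := run_cancel i 84 x
    rwa [hpos i] at h
  · exact hpos i

theorem Ins.run_eq (h42 : ∀ a : G, a ^ 42 = 1) {w₀ w : Braid m} (h : Ins w₀ w)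
    (x : Fin (m + 1) → Strand G O) : run w x = run w₀ x := by
  induction h with
  | refl => rfl
  | insert u v g _ ih =>
    rw [run_append, run_append, run_84 h42, ← run_append]
    exact ih

theorem Ins.perm_eq {w₀ w : Braid m} (h : Ins w₀ w) : perm w = perm w₀ := by
  funext p
  unfold perm
  rw [h.run_eq (fun _ => rfl)]

theorem Ins.isKnot {w₀ w : Braid m} (h : Ins w₀ w) (h0 : IsKnot w₀) : IsKnot w := by
  unfold IsKnot
  rw [h.perm_eq]
  exact h0

theorem Ins.longAux_eq (h42 : ∀ a : G, a ^ 42 = 1) {w₀ w : Braid m} (h : Ins w₀ w)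
    (x : Fin (m + 1) → G) (b : Fin (m + 1)) (t : ℕ) : longAux w x b t = longAux w₀ x b t := by
  induction t with
  | zero => rfl
  | succ t ih =>
    unfold longAux
    rw [ih, h.run_eq h42]

theorem Ins.closed_iff (h42 : ∀ a : G, a ^ 42 = 1) {w₀ w : Braid m} (h : Ins w₀ w)
    (x : Fin (m + 1) → G) : Closed w x ↔ Closed w₀ x := by
  unfold Closed labs
  rw [h.run_eq h42]

/-- The number of homomorphisms to a group of exponent 42 does not change. -/
theorem Ins.card_hom (h42 : ∀ a : G, a ^ 42 = 1) {w₀ w : Braid m} (h : Ins w₀ w)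
    (b : Fin (m + 1)) (f : ℤ) :
    Nat.card (pi1 w b f →* G) = Nat.card (pi1 w₀ b f →* G) := by
  rw [Nat.card_congr (homEquiv w b f), Nat.card_congr (homEquiv w₀ b f)]
  refine Nat.card_congr (Equiv.subtypeEquivRight fun x => ?_)
  rw [h.closed_iff h42, h.longAux_eq h42]
  obtain ⟨k, hk⟩ := h.writhe
  have e : x b ^ (f - Pool.Agent.W616.writhe w) = x b ^ (f - Pool.Agent.W616.writhe w₀) := by
    have e1 : f - Pool.Agent.W616.writhe w = (f - Pool.Agent.W616.writhe w₀) + 42 * (-2 * k) := by
      rw [hk]; ring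
    rw [e1, zpow_add, zpow_mul]
    have e2 : x b ^ (42 : ℤ) = 1 := by
      have := h42 (x b)
      exact_mod_cast this
    rw [e2, one_zpow, mul_one]
  rw [e]

end run

end Pool.Agent.Y472.RH
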